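import Mathlib

/-!
# A positivity for endomorphisms which commute with a Frobenius operator

Let `Fr` be a similitude with multiplier `Q > 0` of a nondegenerate symmetric or alternating
bilinear form `B`, with a squarefree characteristic polynomial with rational coefficients all the
complex roots of which have absolute value `√Q`. If `u` commutes with `Fr`, the traces of the
`u * Fr ^ i` are rational, and the trace of `u` times its adjoint is zero, then `u = 0`.
-/

set_option autoImplicit false

open Polynomial Module TensorProduct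

open scoped Classical

namespace Pool.Agent.Helper29.SS

section Interpolation

variable {L : Type*} [Field L] [CharZero L]

/-- Weights on the roots of a separable rational polynomial with rational power sums are the
values of a rational polynomial. -/
theorem exists_rational (R : ℚ[X]) (hsep : R.Separable)
    (lam : L → L) (t : ℕ → ℚ)
    (ht : ∀ i, ∑ α ∈ (R.map (algebraMap ℚ L)).roots.toFinset, lam α * α ^ i = (t i : L)) :
    ∃ p : ℚ[X], ∀ α ∈ (R.map (algebraMap ℚ L)).roots.toFinset, lam α = aeval α p := by
  classical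
  set RL := R.map (algebraMap ℚ L) with hRL
  have hR0 : RL ≠ 0 := by
    rw [hRL, Ne, Polynomial.map_eq_zero]
    exact hsep.ne_zero
  have hdeg : RL.natDegree = R.natDegree := by
    rw [hRL, natDegree_map]
  set N : ℚ[X] := ∑ j ∈ Finset.range R.natDegree,
    C (∑ i ∈ Finset.Icc (j + 1) R.natDegree, t (i - (j + 1)) * R.coeff i) * X ^ j with hN
  have hNL : N.map (algebraMap ℚ L) =
      ∑ β ∈ RL.roots.toFinset, C (lam β) * (RL /ₘ (X - C β)) := by
    ext j
    rw [finsetSum_coeff]
    simp only [coeff_C_mul, coeff_divByMonic_X_sub_C, hdeg]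
    rw [coeff_map, hN, finsetSum_coeff]
    simp only [coeff_C_mul, coeff_X_pow, mul_ite, mul_one, mul_zero]
    have h1 : ∑ b ∈ RL.roots.toFinset, lam b * ∑ i ∈ Finset.Icc (j + 1) R.natDegree,
        b ^ (i - (j + 1)) * RL.coeff i =
        ∑ i ∈ Finset.Icc (j + 1) R.natDegree, (t (i - (j + 1)) : L) * (R.coeff i : L) := by
      simp only [Finset.mul_sum]
      rw [Finset.sum_comm]
      refine Finset.sum_congr rfl fun i _ => ?_
      rw [← ht, Finset.sum_mul]
      refine Finset.sum_congr rfl fun b _ => ?_
      rw [hRL, coeff_map, eq_ratCast]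
      ring
    rw [h1]
    by_cases hj : j < R.natDegree
    · rw [Finset.sum_ite_eq, if_pos (Finset.mem_range.2 hj)]
      simp [map_sum]
    · rw [Finset.sum_ite_eq, if_neg (by simpa using hj), map_zero, Finset.Icc_eq_empty (by omega),
        Finset.sum_empty]
  obtain ⟨a, b, hab⟩ := hsep
  refine ⟨N * b, fun α hα => ?_⟩
  have hroot : ∀ β ∈ RL.roots.toFinset, (X - C β) * (RL /ₘ (X - C β)) = RL := by
    intro β hβ
    rw [Multiset.mem_toFinset, mem_roots hR0] at hβ
    exact mul_divByMonic_eq_iff_isRoot.2 hβ
  have hRα : aeval α R = 0 := by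
    rw [Multiset.mem_toFinset, mem_roots hR0, hRL, IsRoot, eval_map_algebraMap] at hα
    exact hα
  have h1 : aeval α N = lam α * aeval α (derivative R) := by
    rw [← eval_map_algebraMap, hNL, eval_finsetSum, Finset.sum_eq_single_of_mem α hα]
    · rw [eval_mul, eval_C]
      congr 1
      have h2 : derivative RL = derivative ((X - C α) * (RL /ₘ (X - C α))) := by
        rw [hroot α hα]
      rw [derivative_mul, derivative_X_sub_C, one_mul] at h2
      rw [← eval_map_algebraMap, ← derivative_map, ← hRL, h2, eval_add, eval_mul, eval_sub, eval_X,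
        eval_C, sub_self, zero_mul, add_zero]
    · intro β hβ hne
      rw [eval_mul, eval_C]
      have h3 : (α - β) * (RL /ₘ (X - C β)).eval α = 0 := by
        have := congrArg (eval α) (hroot β hβ)
        rw [eval_mul, eval_sub, eval_X, eval_C] at this
        rw [this, hRL, eval_map_algebraMap, hRα]
      rcases mul_eq_zero.1 h3 with h4 | h4
      · exact absurd (sub_eq_zero.1 h4).symm hne
      · rw [h4, mul_zero]
  have h4 : aeval α b * aeval α (derivative R) = 1 := by
    have := congrArg (aeval α) hab
    rw [map_add, map_mul, map_mul, hRα, mul_zero, zero_add, map_one] at this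
    exact this
  rw [map_mul, h1, mul_assoc, mul_comm (aeval α (derivative R)), h4, mul_one]

end Interpolation

section Eigen

variable {L V : Type*} [Field L] [AddCommGroup V] [Module L V]

theorem exists_eigenbasis [FiniteDimensional L V] (f : End L V) (hsep : f.charpoly.Separable)
    (hsplit : f.charpoly.Splits) :
    ∃ b : Basis (f.charpoly.roots.toFinset) L V, ∀ μ, f (b μ) = (μ : L) • b μ := by
  classical
  have h : ∀ μ : f.charpoly.roots.toFinset, ∃ v, f.HasEigenvector (μ : L) v := fun μ =>
    ((f.hasEigenvalue_iff_isRoot_charpoly _).2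
      ((mem_roots hsep.ne_zero).1 (Multiset.mem_toFinset.1 μ.2))).exists_hasEigenvector
  choose v hv using h
  have hli : LinearIndependent L v :=
    f.eigenvectors_linearIndependent' (fun μ : f.charpoly.roots.toFinset => (μ : L))
      Subtype.coe_injective v hv
  have hcard : Fintype.card (f.charpoly.roots.toFinset) = finrank L V := by
    rw [Fintype.card_coe, Multiset.toFinset_card_of_nodup (nodup_roots hsep),
      ← hsplit.natDegree_eq_card_roots, LinearMap.charpoly_natDegree]
  by_cases hne : Nonempty (f.charpoly.roots.toFinset)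
  · refine ⟨basisOfLinearIndependentOfCardEqFinrank hli hcard, fun μ => ?_⟩
    rw [coe_basisOfLinearIndependentOfCardEqFinrank]
    exact (hv μ).apply_eq_smul
  · rw [not_nonempty_iff] at hne
    rw [Fintype.card_eq_zero] at hcard
    have : Subsingleton V := finrank_zero_iff.1 hcard.symm
    exact ⟨Basis.empty V, fun μ => hne.elim μ⟩

/-- Operators which commute with an operator with distinct eigenvalues are diagonal. -/
theorem apply_eq_smul_of_commute {ι : Type*} (b : Basis ι L V) {f g : End L V} {μ : ι → L}
    (hμ : Function.Injective μ) (hf : ∀ i, f (b i) = μ i • b i) (hfg : ∀ x, f (g x) = g (f x))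
    (i : ι) : g (b i) = b.repr (g (b i)) i • b i := by
  classical
  have key : ∀ x j, b.repr (f x) j = μ j * b.repr x j := by
    intro x j
    have h2 : (b.coord j) ∘ₗ f = μ j • b.coord j := by
      refine b.ext fun i => ?_
      rw [LinearMap.comp_apply, hf, map_smul, LinearMap.smul_apply, Basis.coord_apply,
        Basis.repr_self, smul_eq_mul, smul_eq_mul]
      by_cases hij : i = j
      · subst hij
        rfl
      · rw [Finsupp.single_eq_of_ne (Ne.symm hij), mul_zero, mul_zero]
    have h3 := LinearMap.congr_fun h2 x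
    simpa using h3
  apply b.repr.injective
  ext j
  rw [map_smul, Basis.repr_self, Finsupp.smul_single, smul_eq_mul, mul_one]
  by_cases hij : j = i
  · subst hij
    rw [Finsupp.single_eq_same]
  · rw [Finsupp.single_eq_of_ne hij]
    have h1 := key (g (b i)) j
    rw [hfg, hf, map_smul, map_smul, Finsupp.smul_apply, smul_eq_mul] at h1
    have h2 : (μ i - μ j) * b.repr (g (b i)) j = 0 := by
      rw [sub_mul, h1, sub_self]
    rcases mul_eq_zero.1 h2 with h3 | h3
    · exact absurd (hμ (sub_eq_zero.1 h3)).symm hij
    · exact h3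

theorem trace_eq_sum {ι : Type*} [Fintype ι] (b : Basis ι L V) {g : End L V} {lam : ι → L}
    (hg : ∀ i, g (b i) = lam i • b i) : LinearMap.trace L V g = ∑ i, lam i := by
  classical
  rw [LinearMap.trace_eq_matrix_trace L b g, Matrix.trace]
  refine Finset.sum_congr rfl fun i _ => ?_
  rw [Matrix.diag_apply, LinearMap.toMatrix_apply, hg, map_smul, Basis.repr_self,
    Finsupp.smul_apply, Finsupp.single_eq_same, smul_eq_mul, mul_one]

end Eigen

section Transfer

variable {L : Type*} [Field L] [CharZero L] [IsAlgClosed L]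

theorem aeval_conj_rat (p : ℚ[X]) (z : ℂ) :
    aeval (starRingEnd ℂ z) p = starRingEnd ℂ (aeval z p) := by
  have h := Polynomial.aeval_conj (p.map (algebraMap ℚ ℝ)) z
  rwa [aeval_map_algebraMap, aeval_map_algebraMap] at h

/-- If the sum of the `p α * p (Q / α)` over the roots of `R` vanishes, then `p` vanishes at the
roots: the sum is the sum of the `|p z| ^ 2` over the complex roots. -/
theorem eval_eq_zero_of_sum (R : ℚ[X]) (hsep : R.Separable) (Q : ℚ) (hQ : 0 < Q)
    (hroot : ∀ z : ℂ, aeval z R = 0 → ‖z‖ ^ 2 = (Q : ℝ)) (p : ℚ[X])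
    (h0 : ∑ α ∈ (R.map (algebraMap ℚ L)).roots.toFinset,
      aeval α p * aeval ((Q : L) / α) p = 0) :
    ∀ α ∈ (R.map (algebraMap ℚ L)).roots.toFinset, aeval α p = 0 := by
  let S := R.SplittingField
  have hS : (R.map (algebraMap ℚ S)).Splits := SplittingField.splits R
  let σ : S →ₐ[ℚ] L := IsAlgClosed.lift
  let τ : S →ₐ[ℚ] ℂ := IsAlgClosed.lift
  have hσi : Function.Injective σ := (σ : S →+* L).injective
  have hτi : Function.Injective τ := (τ : S →+* ℂ).injective
  have hσ : (R.map (algebraMap ℚ L)).roots = (R.map (algebraMap ℚ S)).roots.map σ := by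
    have h := hS.roots_map (σ : S →+* L)
    rw [Polynomial.map_map] at h
    have h1 : (σ : S →+* L).comp (algebraMap ℚ S) = algebraMap ℚ L := RingHom.ext_rat _ _
    rw [h1] at h
    exact h
  have e1 : ((R.map (algebraMap ℚ S)).roots.toFinset.image σ) =
      (R.map (algebraMap ℚ L)).roots.toFinset := by
    rw [hσ]
    ext x
    simp
  have hsum : ∑ α ∈ (R.map (algebraMap ℚ S)).roots.toFinset,
      aeval α p * aeval ((Q : S) / α) p = 0 := by
    apply hσi
    rw [map_zero, ← h0, ← e1, Finset.sum_image (fun x _ y _ h => hσi h), map_sum]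
    refine Finset.sum_congr rfl fun α _ => ?_
    rw [map_mul, ← aeval_algHom_apply, ← aeval_algHom_apply, map_div₀, map_ratCast]
  have hC : ∑ α ∈ (R.map (algebraMap ℚ S)).roots.toFinset,
      aeval (τ α) p * aeval ((Q : ℂ) / τ α) p = 0 := by
    have h := congrArg τ hsum
    rw [map_zero, map_sum] at h
    rw [← h]
    refine Finset.sum_congr rfl fun α _ => ?_
    rw [map_mul, ← aeval_algHom_apply, ← aeval_algHom_apply, map_div₀, map_ratCast]
  have hR0 : R.map (algebraMap ℚ S) ≠ 0 := by
    rw [Ne, Polynomial.map_eq_zero]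
    exact hsep.ne_zero
  have hterm : ∀ α ∈ (R.map (algebraMap ℚ S)).roots.toFinset,
      aeval (τ α) p * aeval ((Q : ℂ) / τ α) p = ((‖aeval (τ α) p‖ ^ 2 : ℝ) : ℂ) := by
    intro α hα
    rw [Multiset.mem_toFinset, mem_roots hR0, IsRoot, eval_map_algebraMap] at hα
    have h1 : aeval (τ α) R = 0 := by
      rw [aeval_algHom_apply, hα, map_zero]
    have h2 := hroot _ h1
    have hz : τ α ≠ 0 := by
      intro h
      rw [h, norm_zero, zero_pow two_ne_zero] at h2
      have : (0 : ℝ) < Q := by exact_mod_cast hQ
      rw [← h2] at this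
      exact lt_irrefl _ this
    have h3 : (Q : ℂ) / τ α = starRingEnd ℂ (τ α) := by
      rw [div_eq_iff hz, mul_comm, Complex.mul_conj, Complex.normSq_eq_norm_sq, h2]
      simp
    rw [h3, aeval_conj_rat, Complex.mul_conj, Complex.normSq_eq_norm_sq]
  rw [Finset.sum_congr rfl hterm, ← Complex.ofReal_sum, Complex.ofReal_eq_zero,
    Finset.sum_eq_zero_iff_of_nonneg (fun α _ => by positivity)] at hC
  intro α hα
  rw [← e1, Finset.mem_image] at hα
  obtain ⟨β, hβ, rfl⟩ := hα
  have h1 : aeval (τ β) p = 0 := by
    have := hC β hβ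
    rwa [sq_eq_zero_iff, norm_eq_zero] at this
  have h2 : aeval β p = 0 := by
    apply hτi
    rw [← aeval_algHom_apply, h1, map_zero]
  rw [aeval_algHom_apply, h2, map_zero]

end Transfer

section Main

variable {K : Type*} [Field K] {M : Type*} [AddCommGroup M] [Module K M]

theorem aeval_apply_of_eigen {A V : Type*} [CommRing A] [Algebra K A] [AddCommGroup V] [Module A V]
    [Module K V] [IsScalarTower K A V] (f : End A V) (μ : A) (v : V) (hv : f v = μ • v)
    (q : K[X]) : (aeval f q) v = (aeval μ q) • v := by
  induction q using Polynomial.induction_on' with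
  | add q r hq hr => rw [map_add, map_add, LinearMap.add_apply, hq, hr, add_smul]
  | monomial n c =>
    rw [aeval_monomial, aeval_monomial, Module.End.mul_apply, Module.algebraMap_end_apply]
    have h : ∀ n : ℕ, (f ^ n) v = μ ^ n • v := by
      intro n
      induction n with
      | zero => simp
      | succ n ih => rw [pow_succ', Module.End.mul_apply, ih, map_smul, hv, smul_smul, pow_succ]
    rw [h, mul_smul, algebraMap_smul]

/-- Polynomials in adjoint operators are adjoint. -/
theorem aeval_adjoint (B : LinearMap.BilinForm K M) {f f' : End K M}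
    (h : ∀ x y, B (f x) y = B x (f' y)) (q : K[X]) (x y : M) :
    B (aeval f q x) y = B x (aeval f' q y) := by
  have h1 : ∀ (n : ℕ) (x y : M), B ((f ^ n) x) y = B x ((f' ^ n) y) := by
    intro n
    induction n with
    | zero => simp
    | succ n ih =>
      intro x y
      rw [pow_succ', Module.End.mul_apply, h, ih, pow_succ, Module.End.mul_apply]
  induction q using Polynomial.induction_on' with
  | add q r hq hr => simp only [map_add, LinearMap.add_apply, hq, hr]
  | monomial n c =>
    simp only [aeval_monomial, Module.End.mul_apply, Module.algebraMap_end_apply, map_smul,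
      LinearMap.smul_apply, h1]

variable [CharZero K] [FiniteDimensional K M]

theorem eq_zero_of_trace_aux (L : Type*) [Field L] [CharZero L] [IsAlgClosed L] [Algebra K L]
    (B : LinearMap.BilinForm K M) (hB : B.Nondegenerate) (Fr : End K M) (Q : ℚ) (hQ : 0 < Q)
    (hF : ∀ x y, B (Fr x) (Fr y) = (Q : K) * B x y) (R : ℚ[X])
    (hR : Fr.charpoly = R.map (algebraMap ℚ K)) (hsq : Squarefree R)
    (hroot : ∀ z : ℂ, aeval z R = 0 → ‖z‖ ^ 2 = (Q : ℝ)) (u u' : End K M)
    (hcomm : u * Fr = Fr * u) (hadju : ∀ x y, B (u x) y = B x (u' y))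
    (htr : ∀ i : ℕ, ∃ r : ℚ, LinearMap.trace K M (u * Fr ^ i) = (r : K))
    (h0 : LinearMap.trace K M (u * u') = 0) : u = 0 := by
  let V := L ⊗[K] M
  have hQK : (Q : K) ≠ 0 := by exact_mod_cast hQ.ne'
  have hQL : (Q : L) ≠ 0 := by exact_mod_cast hQ.ne'
  have hsep : R.Separable := PerfectField.separable_iff_squarefree.2 hsq
  set f : End L V := Fr.baseChange L with hfdef
  have hf : f.charpoly = R.map (algebraMap ℚ L) := by
    rw [hfdef, LinearMap.charpoly_baseChange, hR, Polynomial.map_map]
    congr 1
    exact RingHom.ext_rat _ _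
  have hfs : f.charpoly.Separable := by
    rw [hf]
    exact hsep.map
  obtain ⟨β, hβ⟩ := exists_eigenbasis f hfs (IsAlgClosed.splits _)
  have hinj : Function.Injective (fun i : f.charpoly.roots.toFinset => (i : L)) :=
    Subtype.coe_injective
  -- the operator `u` over `L`
  have huL : ∀ x, f (u.baseChange L x) = u.baseChange L (f x) := by
    intro x
    rw [hfdef, ← Module.End.mul_apply, ← Module.End.mul_apply, ← LinearMap.baseChange_mul,
      ← LinearMap.baseChange_mul, hcomm]
  choose r hr using htr
  obtain ⟨p, hp⟩ : ∃ p : ℚ[X], ∀ i, u.baseChange L (β i) = aeval (i : L) p • β i := by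
    have hd : ∀ i, u.baseChange L (β i) = β.repr (u.baseChange L (β i)) i • β i :=
      apply_eq_smul_of_commute β hinj hβ huL
    have hpow : ∀ (n : ℕ) i, (f ^ n) (β i) = (i : L) ^ n • β i := by
      intro n i
      induction n with
      | zero => simp
      | succ n ih => rw [pow_succ', Module.End.mul_apply, ih, map_smul, hβ, smul_smul, pow_succ]
    let lam : L → L := fun α => if h : α ∈ f.charpoly.roots.toFinset then
      β.repr (u.baseChange L (β ⟨α, h⟩)) ⟨α, h⟩ else 0
    have hlam : ∀ i : f.charpoly.roots.toFinset,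
        lam (i : L) = β.repr (u.baseChange L (β i)) i := by
      intro i
      simp only [lam]
      rw [dif_pos i.2]
    have ht : ∀ n, ∑ α ∈ (R.map (algebraMap ℚ L)).roots.toFinset, lam α * α ^ n = (r n : L) := by
      intro n
      rw [← hf, ← Finset.sum_coe_sort]
      have h1 : LinearMap.trace L V ((u * Fr ^ n).baseChange L) = (r n : L) := by
        rw [LinearMap.trace_baseChange, hr, map_ratCast]
      rw [← h1]
      symm
      apply trace_eq_sum β
      intro i
      rw [LinearMap.baseChange_mul, Module.End.mul_apply, LinearMap.baseChange_pow, ← hfdef, hpow,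
        map_smul, hd, smul_smul, hlam, mul_comm]
    obtain ⟨p, hp⟩ := exists_rational R hsep lam r ht
    refine ⟨p, fun i => ?_⟩
    rw [hd, ← hlam, hp _ (by rw [← hf]; exact i.2)]
  set pK := p.map (algebraMap ℚ K) with hpK
  have hpL : ∀ x : L, aeval x pK = aeval x p := fun x => by
    rw [hpK, aeval_map_algebraMap]
  -- base change of polynomials
  have hbc : ∀ (g : End K M) (q : K[X]), (aeval g q).baseChange L = aeval (g.baseChange L) q := by
    intro g q
    exact (aeval_algHom_apply (Module.End.baseChangeHom K L M) g q).symm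
  have hug : u = aeval Fr pK := by
    have h1 : u.baseChange L = (aeval Fr pK).baseChange L := by
      refine β.ext fun i => ?_
      rw [hp, hbc, ← hfdef, aeval_apply_of_eigen f (i : L) (β i) (hβ i), hpL]
    ext x
    apply Module.FaithfullyFlat.tensorProduct_mk_injective (A := K) (B := L) M
    have h2 := LinearMap.congr_fun h1 (1 ⊗ₜ[K] x)
    rwa [LinearMap.baseChange_tmul, LinearMap.baseChange_tmul] at h2
  -- the adjoint of `Fr`
  have hFinj : Function.Injective Fr := by
    rw [injective_iff_map_eq_zero]
    intro x hx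
    refine hB.1 x fun y => ?_
    have h1 := hF x y
    rw [hx, map_zero, LinearMap.zero_apply] at h1
    exact (mul_eq_zero.1 h1.symm).resolve_left hQK
  let E : M ≃ₗ[K] M := LinearEquiv.ofInjectiveEndo Fr hFinj
  have hE : ∀ x, E x = Fr x := fun x => rfl
  let Fr' : End K M := (Q : K) • (E.symm : M →ₗ[K] M)
  have hFF' : Fr * Fr' = (Q : K) • 1 := by
    ext x
    simp only [Fr', Module.End.mul_apply, LinearMap.smul_apply, map_smul, Module.End.one_apply,
      LinearEquiv.coe_coe]
    rw [← hE, E.apply_symm_apply]
  have hadj : ∀ x y, B (Fr x) y = B x (Fr' y) := by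
    intro x y
    have h1 : Fr (E.symm y) = y := by rw [← hE, E.apply_symm_apply]
    have h2 := hF x (E.symm y)
    rw [h1] at h2
    simp only [Fr', LinearMap.smul_apply, map_smul, smul_eq_mul, LinearEquiv.coe_coe]
    exact h2
  -- the adjoint of `u`
  have hu'e : aeval Fr' pK = u' := by
    ext y
    have h1 : ∀ x, B x (aeval Fr' pK y - u' y) = 0 := by
      intro x
      rw [map_sub, ← aeval_adjoint B hadj, ← hug, hadju, sub_self]
    have h2 := hB.2 _ h1
    exact sub_eq_zero.1 h2
  have htr0 : LinearMap.trace K M (u * aeval Fr' pK) = 0 := by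
    rw [hu'e, h0]
  have hFF : Fr' * Fr = (Q : K) • 1 := by
    ext x
    simp only [Fr', Module.End.mul_apply, LinearMap.smul_apply, Module.End.one_apply,
      LinearEquiv.coe_coe]
    rw [← hE, E.symm_apply_apply]
  have hF'f : ∀ x : V, Fr'.baseChange L (f x) = (Q : L) • x := by
    intro x
    rw [hfdef, ← Module.End.mul_apply, ← LinearMap.baseChange_mul, hFF, LinearMap.baseChange_smul]
    have h3 : ((1 : End K M).baseChange L) = 1 := LinearMap.baseChange_one _ _
    rw [h3, LinearMap.smul_apply, Module.End.one_apply, ← algebraMap_smul L (Q : K), map_ratCast]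
  -- the eigenvalues are not zero
  have hne : ∀ i : f.charpoly.roots.toFinset, (i : L) ≠ 0 := by
    intro i h
    have h1 : f (β i) = 0 := by rw [hβ, h, zero_smul]
    have h2 := hF'f (β i)
    rw [h1, map_zero] at h2
    exact hQL ((smul_eq_zero.1 h2.symm).resolve_right (β.ne_zero i))
  have hF' : ∀ i, Fr'.baseChange L (β i) = ((Q : L) / (i : L)) • β i := by
    intro i
    have h2 := hF'f (β i)
    rw [hβ, map_smul] at h2
    rw [div_eq_inv_mul, mul_smul, ← h2, smul_smul, inv_mul_cancel₀ (hne i), one_smul]
  have hsum : ∑ α ∈ (R.map (algebraMap ℚ L)).roots.toFinset,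
      aeval α p * aeval ((Q : L) / α) p = 0 := by
    rw [← hf, ← Finset.sum_coe_sort]
    have h1 : LinearMap.trace L V ((u * aeval Fr' pK).baseChange L) = 0 := by
      rw [LinearMap.trace_baseChange, htr0, map_zero]
    rw [← h1]
    symm
    apply trace_eq_sum β
    intro i
    rw [LinearMap.baseChange_mul, Module.End.mul_apply, hbc,
      aeval_apply_of_eigen (Fr'.baseChange L) ((Q : L) / (i : L)) (β i) (hF' i), map_smul, hp,
      smul_smul, hpL, mul_comm]
  have hzero := eval_eq_zero_of_sum R hsep Q hQ hroot p hsum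
  have huL0 : u.baseChange L = 0 := by
    refine β.ext fun i => ?_
    rw [hp, hzero _ (by rw [← hf]; exact i.2), zero_smul, LinearMap.zero_apply]
  ext x
  apply Module.FaithfullyFlat.tensorProduct_mk_injective (A := K) (B := L) M
  have h2 := LinearMap.congr_fun huL0 (1 ⊗ₜ[K] x)
  rw [LinearMap.baseChange_tmul, LinearMap.zero_apply] at h2
  rw [LinearMap.zero_apply, map_zero]
  exact h2

/-- **Positivity.** An endomorphism `u` which commutes with a similitude `T` with a squarefree
rational characteristic polynomial the complex roots of which have absolute value `√Q`, with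
rational traces of the `u * T ^ i` and with `trace (u * u') = 0` for its adjoint `u'`, is zero. -/
theorem eq_zero_of_trace_eq_zero (B : M →ₗ[K] M →ₗ[K] K)
    (hnd : ∀ x, (∀ y, B x y = 0) → x = 0) {T : Module.End K M} {Q : ℚ} (hQ : 0 < Q)
    (hT : ∀ x y, B (T x) (T y) = (Q : K) * B x y) {R : ℚ[X]}
    (hR : T.charpoly = R.map (algebraMap ℚ K)) (hsq : Squarefree R)
    (habs : ∀ z : ℂ, aeval z R = 0 → ‖z‖ ^ 2 = (Q : ℝ)) {u u' : Module.End K M}
    (hcomm : u * T = T * u) (hadj : ∀ x y, B (u x) y = B x (u' y))
    (htr : ∀ i : ℕ, ∃ t : ℚ, LinearMap.trace K M (u * T ^ i) = (t : K))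
    (h0 : LinearMap.trace K M (u * u') = 0) : u = 0 := by
  have : CharZero (AlgebraicClosure K) := charZero_of_injective_algebraMap
    (algebraMap K (AlgebraicClosure K)).injective
  have hB : LinearMap.BilinForm.Nondegenerate B := by
    refine ⟨hnd, fun y hy => ?_⟩
    have hinj : Function.Injective B := by
      rw [injective_iff_map_eq_zero]
      intro x hx
      exact hnd x fun y => by rw [hx, LinearMap.zero_apply]
    have hsurj : Function.Surjective B :=
      (LinearMap.injective_iff_surjective_of_finrank_eq_finrank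
        (Subspace.dual_finrank_eq (K := K) (V := M)).symm).1 hinj
    rw [← Module.forall_dual_apply_eq_zero_iff K]
    intro φ
    obtain ⟨x, rfl⟩ := hsurj φ
    exact hy x
  exact eq_zero_of_trace_aux (AlgebraicClosure K) B hB T Q hQ hT R hR hsq habs u u' hcomm hadj htr
    h0

theorem eq_zero_of_trace (B : LinearMap.BilinForm K M) (hB : B.Nondegenerate) (e : K)
    (he : ∀ x y, B x y = e * B y x) (Fr : End K M) (Q : ℚ) (hQ : 0 < Q)
    (hF : ∀ x y, B (Fr x) (Fr y) = (Q : K) * B x y) (R : ℚ[X])
    (hR : Fr.charpoly = R.map (algebraMap ℚ K)) (hsq : Squarefree R)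
    (hroot : ∀ z : ℂ, aeval z R = 0 → ‖z‖ ^ 2 = (Q : ℝ)) (u : End K M)
    (hcomm : u * Fr = Fr * u)
    (htr : ∀ i : ℕ, ∃ r : ℚ, LinearMap.trace K M (u * Fr ^ i) = (r : K)) {m : ℕ}
    (a b : Fin m → M) (hu : ∀ x, u x = ∑ i, B (a i) x • b i)
    (h0 : ∑ i, ∑ j, B (a i) (a j) * B (b i) (b j) = 0) : u = 0 := by
  have : CharZero (AlgebraicClosure K) := charZero_of_injective_algebraMap
    (algebraMap K (AlgebraicClosure K)).injective
  let u' : End K M := ∑ j, (B (b j)).smulRight (a j)
  have hu' : ∀ y, u' y = ∑ j, B (b j) y • a j := by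
    intro y
    simp [u', LinearMap.sum_apply]
  have hadju : ∀ x y, B (u x) y = B x ((e • u') y) := by
    intro x y
    rw [LinearMap.smul_apply, map_smul, smul_eq_mul, hu, hu', map_sum, LinearMap.sum_apply,
      map_sum, Finset.mul_sum]
    refine Finset.sum_congr rfl fun i _ => ?_
    rw [map_smul, LinearMap.smul_apply, map_smul, smul_eq_mul, smul_eq_mul, he (a i) x]
    ring
  refine eq_zero_of_trace_aux (AlgebraicClosure K) B hB Fr Q hQ hF R hR hsq hroot u (e • u') hcomm
    hadju htr ?_
  have h1 : u * u' = ∑ j, (B (b j)).smulRight (u (a j)) := by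
    ext y
    rw [Module.End.mul_apply, hu', map_sum, LinearMap.sum_apply]
    refine Finset.sum_congr rfl fun j _ => ?_
    rw [map_smul, LinearMap.smulRight_apply]
  rw [mul_smul_comm, map_smul, h1, map_sum]
  have h2 : ∀ j, LinearMap.trace K M ((B (b j)).smulRight (u (a j))) =
      ∑ i, e * (B (a i) (a j) * B (b i) (b j)) := by
    intro j
    rw [LinearMap.trace_smulRight, hu, map_sum]
    refine Finset.sum_congr rfl fun i _ => ?_
    rw [map_smul, smul_eq_mul, he (b j) (b i)]
    ring
  simp only [h2]
  rw [Finset.sum_comm]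
  simp only [← Finset.mul_sum]
  rw [h0, mul_zero, smul_zero]

end Main

end Pool.Agent.Helper29.SS
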