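import Mathlib
import Pool.Agent.Helper11.SS.Final

/-!
# Standard conjecture D for motives with a simple Frobenius spectrum at one place

Let `W` be a Weil cohomology theory for varieties over a field `k`, and `W'` a Weil cohomology theory
for varieties over a finite field `k'` with `q` elements, with the same field of coefficients `K` of
characteristic `0`. Let `V c` be finitely many varieties over `k` which specialise to varieties `V' c`
over `k'`. For `ℓ`-adic cohomology this is the case if they have good reduction at a common place
with residue field `k'`; in particular `k` may be any finitely generated field of characteristic `p`,
or `k = k'`. Let `E c ⊆ H ^ dim (V c)` be pieces of the middle cohomology: images of orthogonal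
projectors given by rational combinations of algebraic correspondences, such as the middle
cohomology of a complete intersection, or its primitive part.

Nothing is assumed about the algebraic cycles on the `V' c` and their products. We assume that the
characteristic polynomial `R c` of the Frobenius endomorphism of `V' c` on `E c` has rational
coefficients and complex roots of absolute value `q ^ (dim / 2)` (the theorem of Deligne), that
it is squarefree, and that all its irreducible factors over `K` are self-dual, for the involution
`a ↦ q ^ dim / a` of the roots. For `K = ℚ_ℓ` and given squarefree `R c`, the last condition holds for
a set of primes `ℓ` of positive density, since the complex conjugation of the splitting field of the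
`R c` is in the centre of the Galois group. We show that the standard conjecture D holds for all
varieties `Y` over `k` whose cohomology is spanned by the images of words in the `E c` under algebraic
correspondences, such as all products of the given complete intersections.

On the proof. Over `k'`, the graph of Frobenius is a symmetry. By the theorem about related flags
numerically trivial classes on products of the `V' c` are orthogonal to all words in the `E c`, since
the self-dual factors exclude isotropic subspaces which are stable under Frobenius. In order to go from
`k'` to `k` (where there need not be any algebraic correspondences to use), one needs a positivity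
for the classes of algebraic cycles in `E c ⊗ E c` over `k'`. Such a class gives an endomorphism `u` of
`E c`, which commutes with Frobenius, and the traces of `u Fr ^ i` are rational, as intersection
numbers. So `u = p(Fr)` for a rational polynomial `p`, since Frobenius has simple eigenvalues, and the
trace of `u` times its adjoint is the sum of the `|p(z)| ^ 2` over the complex roots `z` of `R c`.
-/

universe u v w u' w'

open Polynomial Pool.Agent.Helper10 Pool.Agent.Helper11 Pool.Agent.Helper11.Obs
  Pool.Agent.Helper11.BD Pool.Agent.Helper11.Zt

theorem Pool.Agent.Helper29.SS.result
    {k : Type u} [Field k] {K : Type v} [Field K] [CharZero K] (W : WeilCohomology.{u, v, w} k K)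
    {k' : Type u'} [Field k'] [Finite k'] (W' : WeilCohomology.{u', v, w'} k' K)
    -- finitely many varieties over `k` and their specialisations over the finite field `k'`
    (P : ℕ) (V : Fin P → SmProjVar k) (V' : Fin P → SmProjVar k')
    (φ : ∀ c, W.H (V c) → W'.H (V' c))
    (hφ : AreSpecializations W.toCohomologyData W'.toCohomologyData V V' φ)
    -- pieces over `ℚ` of the middle cohomology
    (E : ∀ c, Submodule K (W.H (V c)))
    (hE : ∀ c, Ro.IsPieceOver W.toCohomologyData (algebraMap ℚ K).fieldRange (V c) (E c))
    (hmid : ∀ c, E c ≤ W.gr (V c) (V c).dim)
    -- the characteristic polynomial of Frobenius on `φ (E c)`
    (R : Fin P → ℚ[X])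
    (hR : ∀ c, IsCharpolyOn (W'.pull (frob (V' c))) ((E c).map (hφ.lin c))
      ((R c).map (algebraMap ℚ K)))
    (hsq : ∀ c, Squarefree (R c))
    (habs : ∀ c, ∀ z : ℂ, aeval z (R c) = 0 → ‖z‖ ^ 2 = (Nat.card k' : ℝ) ^ (V c).dim)
    (hself : ∀ c (p : K[X]), Irreducible p → p ∣ (R c).map (algebraMap ℚ K) →
      Associated p (dualPoly ((Nat.card k' : K) ^ (V c).dim) p)) :
    ∀ Y, Ro.IsSpanned W.toCohomologyData V E Y → W.StandardD Y :=
  fun _ hY => standardD_of_simpleFrobenius W W' hφ hE hmid hR hsq habs hself hY
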